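import Mathlib
import Pool.Agent.H621R3.TsDefs
import Pool.Agent.H621R3.TsEmb
import Pool.Agent.H621R3.TsSpace

set_option autoImplicit false

/-!
Problem MP_6dccca_an, Q2: the Hamming graphs `(H_k)` DO equi-coarsely embed into `T*(T*)`.

The definitions (`IsTsirelsonNorm`, `InDual`, `dualNorm`, `InSum`, `sumNorm`, `HamGraph`,
`hamDist`) are in `Pool.Agent.H621R3.TsDefs`.

Construction: the coordinate `n_j` of `n ∈ H_k` is written into the row `l = k + 1 - j` of
`T*(T*)` (rows in the reverse order), together with a copy of the metric space of the possible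
histories `(n_1, …, n_(j-1))`, with the metric `min (2^(-l) d_H) 1`, in a far out `ℓ_∞^M ⊂ T*`
depending on `n_j`.
-/

namespace Pool.Agent.Results.MP_6dccca_an.HammingEmbeds

open Filter Pool.Agent.H621R3.Ts

/-- the embedding, with values in the Banach space -/
noncomputable def embTT {k : ℕ} (n : HamGraph k) : TT := ⟨emb n, (emb_sum n n).1⟩

theorem seq_embTT {k : ℕ} (n : HamGraph k) : seq (embTT n) = emb n := rfl

theorem result :
    (∃! ν : (ℕ →₀ ℝ) → ℝ, IsTsirelsonNorm ν) ∧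
    ∀ ν : (ℕ →₀ ℝ) → ℝ, IsTsirelsonNorm ν →
      ∃ (X : Type) (_ : NormedAddCommGroup X) (_ : NormedSpace ℝ X) (_ : CompleteSpace X)
        (s : X →ₗ[ℝ] (ℕ → ℕ → ℝ)), Function.Injective s ∧ Set.range s = {x | InSum ν x} ∧
        (∀ x, ‖x‖ = sumNorm ν (s x)) ∧
        ∃ ρ ω : ℝ → ℝ, MonotoneOn ρ (Set.Ici 0) ∧ MonotoneOn ω (Set.Ici 0) ∧
          (∀ t, 0 ≤ t → 0 ≤ ρ t ∧ 0 ≤ ω t) ∧ Tendsto ρ atTop atTop ∧
          ∀ k : ℕ, ∃ f : HamGraph k → X, ∀ m n : HamGraph k,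
            ρ (hamDist m n) ≤ ‖f m - f n‖ ∧ ‖f m - f n‖ ≤ ω (hamDist m n) := by
  refine ⟨⟨tn, isTsirelsonNorm_tn, fun ν h => h.eq_tn⟩, fun ν hν => ?_⟩
  rw [hν.eq_tn]
  refine ⟨TT, inferInstance, inferInstance, inferInstance, seq, seq_inj, ?_, norm_TT, rhoF,
    fun t => 10 * t, rhoF_mono.monotoneOn _, ?_, ?_, rhoF_tendsto, ?_⟩
  · ext x
    constructor
    · rintro ⟨y, rfl⟩
      exact seq_mem y
    · intro hx
      exact ⟨⟨x, hx⟩, rfl⟩
  · intro s _ t _ hst
    show 10 * s ≤ 10 * t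
    linarith
  · intro t ht
    exact ⟨dualNorm_nonneg _, by positivity⟩
  · intro k
    refine ⟨embTT, fun m n => ?_⟩
    rw [norm_TT, map_sub, seq_embTT, seq_embTT]
    refine ⟨?_, emb_upper m n⟩
    have h := emb_lower m n
    unfold rhoF
    rw [Nat.floor_natCast]
    exact h

end Pool.Agent.Results.MP_6dccca_an.HammingEmbeds
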